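import Pool.Agent.Q4.Sub.Up

/-!
# The Sobolev gap of a submodule can be larger than the Sobolev gap of the module
-/

open scoped NNReal ENNReal
open Q4.Sub

namespace Pool.Agent.Results.MP_c67f28_al.SubmoduleGap

/-- For the real reductive group `G = SL(2, ℝ) × ℝ` (that is, `GL(2, ℝ)₊`) and every `C` there are
Harish-Chandra modules `V ⊂ U` and a weight `w` with `Norm(V, w) ≠ ∅` and `Norm(U, w) ≠ ∅` such
that `s(V, w) > s(U, w) + C`. -/
theorem result : ∀ c : ℝ, 0 < c → ∀ C : ℝ≥0,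
    ∃ (V : Type) (_ : AddCommGroup V) (_ : Module ℂ V) (U : Type) (_ : AddCommGroup U)
      (_ : Module ℂ U) (D : Ops V) (D' : Ops U) (ι : V →ₗ[ℂ] U),
      D.IsHarishChandra ∧ D'.IsHarishChandra ∧ IsSubmoduleOf D D' ι ∧
        ∃ w : GG → ℝ, IsWeightFunction w ∧ (∃ p, InNorm D w p) ∧ (∃ p, InNorm D' w p) ∧
          gap D' c w + C < gap D c w := by
  intro c hc C
  obtain ⟨κ, hκ⟩ := exists_nat_gt (3 + (C : ℝ))
  have hκ0 : 0 < κ := by
    rcases Nat.eq_zero_or_pos κ with h | h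
    · rw [h, Nat.cast_zero] at hκ
      have := C.2
      linarith
    · exact h
  refine ⟨VP, inferInstance, inferInstance, VW, inferInstance, inferInstance, DV κ, DU κ,
    LinearMap.inl ℂ VP VP, DV_hc hκ0, DU_hc hκ0, submodule κ, wk κ, wk_weight κ,
    ⟨pV 0, inNormV (Nat.zero_le _)⟩, ⟨pU κ, inNormU κ⟩, ?_⟩
  calc gap (DU κ) c (wk κ) + (C : ℝ≥0∞) ≤ ((κ + 3 : ℕ) : ℝ≥0∞) + (C : ℝ≥0∞) := by
        gcongr
        exact gap_up hc hκ0
    _ = (((κ : ℝ≥0) + 3 + C : ℝ≥0) : ℝ≥0∞) := by push_cast; rfl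
    _ < ((2 * (κ : ℝ≥0) : ℝ≥0) : ℝ≥0∞) := by
        rw [ENNReal.coe_lt_coe, ← NNReal.coe_lt_coe]
        push_cast
        linarith
    _ = ((2 * κ : ℕ) : ℝ≥0∞) := by push_cast; rfl
    _ ≤ gap (DV κ) c (wk κ) := gap_low hc κ

end Pool.Agent.Results.MP_c67f28_al.SubmoduleGap
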